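import Mathlib

set_option autoImplicit false

/-!
Even real entire functions with monotonic zeros in the closed first quadrant: pairwise
compatibility does not imply compatibility.  The functions `-z ^ 4`, `z ^ 6 + z ^ 2` and
`-(z ^ 2 - 1) ^ 2` are pairwise compatible, but
`25 * (-z ^ 4) + 8 * (z ^ 6 + z ^ 2) + 16 * (-(z ^ 2 - 1) ^ 2)` has the zero `2` and a zero in the
open first quadrant with real part smaller than `2`.
-/

namespace Pool.Agent.Results.MP_c4a6c0_an.PairwiseNotCompatible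

/-- The closed first quadrant `Q`. -/
def quadrant : Set ℂ := {z | 0 ≤ z.re ∧ 0 ≤ z.im}

/-- `f` is entire, even, and real on the real line. -/
def EvenRealEntire (f : ℂ → ℂ) : Prop :=
  Differentiable ℂ f ∧ (∀ z : ℂ, f (-z) = f z) ∧ ∀ x : ℝ, (f (x : ℂ)).im = 0

/-- `F` is not identically zero and has monotonic zeros in `Q`: distinct zeros in `Q` have distinct
real parts, and if `α`, `β` are zeros in `Q` with `Re α < Re β` then `Im α ≤ Im β`. -/
def MonotonicZeros (F : ℂ → ℂ) : Prop :=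
  (∃ z, F z ≠ 0) ∧
  (∀ α ∈ quadrant, ∀ β ∈ quadrant, F α = 0 → F β = 0 → α ≠ β → α.re ≠ β.re) ∧
  (∀ α ∈ quadrant, ∀ β ∈ quadrant, F α = 0 → F β = 0 → α.re < β.re → α.im ≤ β.im)

/-- The family `f` is compatible: every combination with nonnegative coefficients which is not
identically zero has monotonic zeros in `Q`. -/
def Compatible {k : ℕ} (f : Fin k → ℂ → ℂ) : Prop :=
  ∀ c : Fin k → ℝ, (∀ j, 0 ≤ c j) → (∃ z, ∑ j, (c j : ℂ) * f j z ≠ 0) →
    MonotonicZeros (fun z => ∑ j, (c j : ℂ) * f j z)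

/-- All pairs of members of the family are compatible. -/
def PairwiseCompatible {k : ℕ} (f : Fin k → ℂ → ℂ) : Prop :=
  ∀ i j : Fin k, i < j → Compatible ![f i, f j]

/-- The general combination. -/
def G (a b c : ℝ) (z : ℂ) : ℂ := -(a : ℂ) * z ^ 4 + b * (z ^ 6 + z ^ 2) - c * (z ^ 2 - 1) ^ 2

lemma sq_inj {α β : ℂ} (hα : α ∈ quadrant) (hβ : β ∈ quadrant) (h : α ^ 2 = β ^ 2) : α = β := by
  rcases sq_eq_sq_iff_eq_or_eq_neg.1 h with h | h
  · exact h
  · have h1 : α.re = -β.re := by rw [h]; simp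
    have h2 : α.im = -β.im := by rw [h]; simp
    have h3 := hα.1
    have h4 := hα.2
    have h5 := hβ.1
    have h6 := hβ.2
    apply Complex.ext <;> linarith

lemma sq_re (α : ℂ) : (α ^ 2).re = α.re ^ 2 - α.im ^ 2 := by
  rw [pow_two, Complex.mul_re]; ring

lemma sq_im (α : ℂ) : (α ^ 2).im = 2 * α.re * α.im := by
  rw [pow_two, Complex.mul_im]; ring

/-- real and imaginary parts of the equation for the square. -/
lemma eqs {a b c : ℝ} {α : ℂ} (h : G a b c α = 0) :
    -a * ((α ^ 2).re ^ 2 - (α ^ 2).im ^ 2) +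
      b * ((α ^ 2).re ^ 3 - 3 * (α ^ 2).re * (α ^ 2).im ^ 2 + (α ^ 2).re) -
      c * (((α ^ 2).re - 1) ^ 2 - (α ^ 2).im ^ 2) = 0 ∧
    -a * (2 * (α ^ 2).re * (α ^ 2).im) +
      b * (3 * (α ^ 2).re ^ 2 * (α ^ 2).im - (α ^ 2).im ^ 3 + (α ^ 2).im) -
      c * (2 * ((α ^ 2).re - 1) * (α ^ 2).im) = 0 := by
  have h1 : -(a : ℂ) * (α ^ 2) ^ 2 + b * ((α ^ 2) ^ 3 + α ^ 2) - c * (α ^ 2 - 1) ^ 2 = 0 := by
    rw [← h]; unfold G; ring
  generalize α ^ 2 = w at h1 ⊢
  have hw : w = (w.re : ℂ) + (w.im : ℂ) * Complex.I := (Complex.re_add_im w).symm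
  have h2 : ((-a * (w.re ^ 2 - w.im ^ 2) + b * (w.re ^ 3 - 3 * w.re * w.im ^ 2 + w.re) -
      c * ((w.re - 1) ^ 2 - w.im ^ 2) : ℝ) : ℂ) +
      ((-a * (2 * w.re * w.im) + b * (3 * w.re ^ 2 * w.im - w.im ^ 3 + w.im) -
      c * (2 * (w.re - 1) * w.im) : ℝ) : ℂ) * Complex.I = 0 := by
    rw [← h1]
    conv_rhs => rw [hw]
    push_cast
    have hI : Complex.I ^ 2 = -1 := Complex.I_sq
    have hI3 : Complex.I ^ 3 = -Complex.I := Complex.I_pow_three
    ring_nf
    rw [hI, hI3]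
    ring
  have h3 := congrArg Complex.re h2
  have h4 := congrArg Complex.im h2
  simp only [Complex.add_re, Complex.add_im, Complex.ofReal_re, Complex.ofReal_im,
    Complex.mul_re, Complex.mul_im, Complex.I_re, Complex.I_im, mul_zero, mul_one,
    sub_zero, add_zero, zero_add, Complex.zero_re, Complex.zero_im] at h3 h4
  exact ⟨by linarith, by linarith⟩

/-- one zero has a real square, the other one does not. -/
lemma mixed {a b c x X Y : ℝ} (hb : 0 < b) (hc : 0 ≤ c) (h0 : a = 0 ∨ c = 0)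
    (hY : Y ≠ 0) (hx0 : 0 ≤ x)
    (hx : -a * x ^ 2 + b * (x ^ 3 + x) - c * (x - 1) ^ 2 = 0)
    (h1 : -a * (X ^ 2 - Y ^ 2) + b * (X ^ 3 - 3 * X * Y ^ 2 + X) - c * ((X - 1) ^ 2 - Y ^ 2) = 0)
    (h2 : -a * (2 * X * Y) + b * (3 * X ^ 2 * Y - Y ^ 3 + Y) - c * (2 * (X - 1) * Y) = 0) :
    x = 0 ∨ (x < 4 / 5 ∧ 0 < X ∧ (2 * x) ^ 2 < X ^ 2 + Y ^ 2) := by
  have h2' : -a * (2 * X) + b * (3 * X ^ 2 - Y ^ 2 + 1) - c * (2 * (X - 1)) = 0 := by
    have : Y * (-a * (2 * X) + b * (3 * X ^ 2 - Y ^ 2 + 1) - c * (2 * (X - 1))) = 0 := by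
      linarith
    exact (mul_eq_zero.1 this).resolve_left hY
  have hY2 : 0 < Y ^ 2 := by positivity
  rcases h0 with rfl | rfl
  · -- `a = 0`
    by_cases hx1 : x = 0
    · exact Or.inl hx1
    have hxp : 0 < x := lt_of_le_of_ne hx0 (Ne.symm hx1)
    right
    -- Vieta
    have hS : 0 < (X - x) ^ 2 + Y ^ 2 := by positivity
    have hDi : ((X - x) ^ 2 + Y ^ 2) * (Y * (b * (2 * X + x) - c)) = 0 := by
      linear_combination (X - x) * h2 - Y * (h1 - hx)
    have hDr : ((X - x) ^ 2 + Y ^ 2) *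
        (b * (X ^ 2 - Y ^ 2 + X * x + x ^ 2 + 1) - c * (X + x - 2)) = 0 := by
      linear_combination (X - x) * (h1 - hx) + Y * h2
    have hk : c = b * (2 * X + x) := by
      have h := (mul_eq_zero.1 ((mul_eq_zero.1 hDi).resolve_left hS.ne')).resolve_left hY
      linarith
    have hDr' := (mul_eq_zero.1 hDr).resolve_left hS.ne'
    subst hk
    have hX : x ^ 2 = X * (x - 1) ^ 2 := by
      have h : b * (x ^ 2 - X * (x - 1) ^ 2) = 0 := by linear_combination (1 / 2) * hx
      have := (mul_eq_zero.1 h).resolve_left hb.ne'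
      linarith
    have hN : X ^ 2 + Y ^ 2 = 1 + 2 * x + 4 * X - 2 * X * x := by
      have h : b * (X ^ 2 + Y ^ 2 - (1 + 2 * x + 4 * X - 2 * X * x)) = 0 := by
        linear_combination -hDr'
      have := (mul_eq_zero.1 h).resolve_left hb.ne'
      linarith
    have hXp : 0 < X := by
      have h : 0 < X * (x - 1) ^ 2 := by rw [← hX]; positivity
      by_contra hcon
      have := mul_nonpos_of_nonpos_of_nonneg (not_lt.1 hcon) (sq_nonneg (x - 1))
      linarith
    have hlt : x ^ 4 < (x - 1) ^ 2 * (x ^ 2 + 1) := by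
      have h1' : X ^ 2 < 1 + 2 * x + 4 * X - 2 * X * x := by linarith
      have hx1' : 0 < (x - 1) ^ 2 := by
        by_contra hcon
        have : (x - 1) ^ 2 = 0 := le_antisymm (not_lt.1 hcon) (sq_nonneg _)
        rw [this, mul_zero] at hX
        exact hx1 (pow_eq_zero_iff (two_ne_zero) |>.1 hX)
      have h2'' := mul_lt_mul_of_pos_right h1' (show 0 < (x - 1) ^ 2 * (x - 1) ^ 2 by positivity)
      have e1 : X ^ 2 * ((x - 1) ^ 2 * (x - 1) ^ 2) = x ^ 4 := by
        have : (X * (x - 1) ^ 2) ^ 2 = (x ^ 2) ^ 2 := by rw [← hX]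
        linarith
      have e2 : (1 + 2 * x + 4 * X - 2 * X * x) * ((x - 1) ^ 2 * (x - 1) ^ 2) =
          (x - 1) ^ 2 * (x ^ 2 + 1) := by
        linear_combination (-(4 - 2 * x) * (x - 1) ^ 2) * hX
      linarith
    have hx45 : x < 4 / 5 := by
      by_contra hcon
      have hcon' := not_lt.1 hcon
      nlinarith [mul_nonneg (sub_nonneg.2 hcon') (sq_nonneg (x - 1 / 2)), sq_nonneg (x - 1 / 2)]
    refine ⟨hx45, hXp, ?_⟩
    rw [hN]
    nlinarith [mul_pos hXp hxp, mul_pos hXp (sub_pos.2 hx45), mul_pos hxp (sub_pos.2 hx45)]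
  · -- `c = 0`
    left
    by_contra hx1
    have hS : 0 < X ^ 2 + Y ^ 2 := by positivity
    have hDi : (X ^ 2 + Y ^ 2) * (Y * (2 * b * X - a)) = 0 := by
      linear_combination X * h2 - Y * h1
    have hDr : (X ^ 2 + Y ^ 2) * (b * (X ^ 2 - Y ^ 2) - a * X + b) = 0 := by
      linear_combination X * h1 + Y * h2
    have hk : a = 2 * b * X := by
      have h := (mul_eq_zero.1 ((mul_eq_zero.1 hDi).resolve_left hS.ne')).resolve_left hY
      linarith
    have hDr' := (mul_eq_zero.1 hDr).resolve_left hS.ne'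
    subst hk
    have hxx : x * (b * (x ^ 2 - 2 * X * x + 1)) = 0 := by linear_combination hx
    have h3 := (mul_eq_zero.1 ((mul_eq_zero.1 hxx).resolve_left hx1)).resolve_left hb.ne'
    have h4 : b * (X ^ 2 + Y ^ 2 - 1) = 0 := by linear_combination -hDr'
    have h5 := (mul_eq_zero.1 h4).resolve_left hb.ne'
    nlinarith [sq_nonneg (x - X)]

lemma mixed' {a b c : ℝ} (hb : 0 < b) (ha : 0 ≤ a) (hc : 0 ≤ c) (h0 : a = 0 ∨ c = 0) {α β : ℂ}
    (hα : α ∈ quadrant) (hβ : β ∈ quadrant) (hα0 : G a b c α = 0) (hβ0 : G a b c β = 0)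
    (hαi : (α ^ 2).im = 0) (hβi : 0 < (β ^ 2).im) : α.re < β.re ∧ α.im ≤ β.im := by
  obtain ⟨hx, -⟩ := eqs hα0
  obtain ⟨h1, h2⟩ := eqs hβ0
  rw [hαi] at hx
  have hx' : -a * (α ^ 2).re ^ 2 + b * ((α ^ 2).re ^ 3 + (α ^ 2).re) -
      c * ((α ^ 2).re - 1) ^ 2 = 0 := by linear_combination hx
  have hx0 : 0 ≤ (α ^ 2).re := by
    by_contra hcon
    have hneg := not_le.1 hcon
    have e1 : 0 ≤ a * (α ^ 2).re ^ 2 := by positivity
    have e2 : 0 ≤ c * ((α ^ 2).re - 1) ^ 2 := by positivity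
    have e3 : (α ^ 2).re ^ 3 + (α ^ 2).re < 0 := by
      nlinarith [sq_nonneg (α ^ 2).re]
    have e4 := mul_neg_of_pos_of_neg hb e3
    linarith
  have hβu : 0 < β.re := by
    rw [sq_im] at hβi
    rcases lt_or_eq_of_le hβ.1 with h | h
    · exact h
    · rw [← h] at hβi; simp at hβi
  -- `α` is real
  have hαim : α.im = 0 := by
    have h3 := sq_im α
    have h4 := sq_re α
    rw [hαi] at h3
    have h5 := hα.1
    have h6 := hα.2
    by_contra hne
    have h7 : 0 < α.im := lt_of_le_of_ne h6 (Ne.symm hne)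
    have h8 : α.re = 0 := by
      have : α.re * α.im = 0 := by linarith
      exact (mul_eq_zero.1 this).resolve_right hne
    rw [h8] at h4
    nlinarith
  have hαre : (α ^ 2).re = α.re ^ 2 := by rw [sq_re, hαim]; ring
  refine ⟨?_, by rw [hαim]; exact hβ.2⟩
  have key : α.re ^ 2 < β.re ^ 2 := by
    rcases mixed hb hc h0 hβi.ne' hx0 hx' h1 h2 with h | ⟨h3, h4, h5⟩
    · rw [← hαre, h]; positivity
    · rw [← hαre]
      have e1 : (β ^ 2).re ^ 2 + (β ^ 2).im ^ 2 = (β.re ^ 2 + β.im ^ 2) ^ 2 := by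
        rw [sq_re, sq_im]; ring
      rw [e1] at h5
      have h6 : 2 * (α ^ 2).re < β.re ^ 2 + β.im ^ 2 := by
        exact lt_of_pow_lt_pow_left₀ 2 (by positivity) h5
      rw [sq_re β] at h4
      linarith
  exact lt_of_pow_lt_pow_left₀ 2 hβu.le key

lemma three {e f g h z1 z2 z3 : ℂ} (h1 : e * z1 ^ 3 + f * z1 ^ 2 + g * z1 + h = 0)
    (h2 : e * z2 ^ 3 + f * z2 ^ 2 + g * z2 + h = 0)
    (h3 : e * z3 ^ 3 + f * z3 ^ 2 + g * z3 + h = 0) (h12 : z1 ≠ z2) (h13 : z1 ≠ z3)
    (h23 : z2 ≠ z3) : e * (z1 + z2 + z3) + f = 0 := by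
  have key : (z1 - z2) * ((z1 - z3) * ((z2 - z3) * (e * (z1 + z2 + z3) + f))) = 0 := by
    linear_combination (z2 - z3) * h1 + (z3 - z1) * h2 + (z1 - z2) * h3
  exact (mul_eq_zero.1 ((mul_eq_zero.1 ((mul_eq_zero.1 key).resolve_left
    (sub_ne_zero.2 h12))).resolve_left (sub_ne_zero.2 h13))).resolve_left (sub_ne_zero.2 h23)

lemma im_sq_nonneg {α : ℂ} (hα : α ∈ quadrant) : 0 ≤ (α ^ 2).im := by
  rw [sq_im]
  have := hα.1
  have := hα.2
  positivity

lemma key {a b c : ℝ} (ha : 0 ≤ a) (hb : 0 ≤ b) (hc : 0 ≤ c) (h0 : a = 0 ∨ b = 0 ∨ c = 0)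
    (hne : ∃ z, G a b c z ≠ 0) {α β : ℂ} (hα : α ∈ quadrant) (hβ : β ∈ quadrant)
    (hα0 : G a b c α = 0) (hβ0 : G a b c β = 0) (hαβ : α ≠ β) :
    (α.re < β.re ∧ α.im ≤ β.im) ∨ (β.re < α.re ∧ β.im ≤ α.im) := by
  have hsq : α ^ 2 ≠ β ^ 2 := fun h => hαβ (sq_inj hα hβ h)
  have hia := im_sq_nonneg hα
  have hib := im_sq_nonneg hβ
  rcases hb.eq_or_lt with hb0 | hb0
  · -- `b = 0`
    exfalso
    subst hb0
    have hac : 0 < a + c := by
      rcases (add_nonneg ha hc).eq_or_lt with h | h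
      · have h1 : a = 0 := by linarith
        have h2 : c = 0 := by linarith
        obtain ⟨z, hz⟩ := hne
        exact absurd (by simp [G, h1, h2]) hz
      · exact h
    have main : ∀ γ : ℂ, γ ∈ quadrant → G a 0 c γ = 0 → (a + c) * (γ ^ 2).re = c ∧
        (a + c) * (γ ^ 2).im ^ 2 = a * (γ ^ 2).re ^ 2 + c * ((γ ^ 2).re - 1) ^ 2 := by
      intro γ hγ hγ0
      obtain ⟨h1, h2⟩ := eqs hγ0
      have h3 : (a + c) * (γ ^ 2).im ^ 2 = a * (γ ^ 2).re ^ 2 + c * ((γ ^ 2).re - 1) ^ 2 := by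
        linear_combination h1
      refine ⟨?_, h3⟩
      by_cases hy : (γ ^ 2).im = 0
      · rw [hy] at h3
        have e1 : 0 ≤ a * (γ ^ 2).re ^ 2 := by positivity
        have e2 : 0 ≤ c * ((γ ^ 2).re - 1) ^ 2 := by positivity
        have e3 : a * (γ ^ 2).re ^ 2 = 0 := by nlinarith
        have e4 : c * ((γ ^ 2).re - 1) ^ 2 = 0 := by nlinarith
        have e5 : a * (γ ^ 2).re = 0 := by
          rcases mul_eq_zero.1 e3 with h | h
          · rw [h, zero_mul]
          · rw [pow_eq_zero_iff two_ne_zero] at h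
            rw [h, mul_zero]
        have e6 : c * ((γ ^ 2).re - 1) = 0 := by
          rcases mul_eq_zero.1 e4 with h | h
          · rw [h, zero_mul]
          · rw [pow_eq_zero_iff two_ne_zero] at h
            rw [h, mul_zero]
        linarith
      · have h4 : (γ ^ 2).im * ((a + c) * (γ ^ 2).re - c) = 0 := by
          linear_combination (-1 / 2) * h2
        have := (mul_eq_zero.1 h4).resolve_left hy
        linarith
    obtain ⟨p1, p2⟩ := main α hα hα0
    obtain ⟨q1, q2⟩ := main β hβ hβ0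
    have hre : (α ^ 2).re = (β ^ 2).re :=
      mul_left_cancel₀ hac.ne' (p1.trans q1.symm)
    have him : (α ^ 2).im ^ 2 = (β ^ 2).im ^ 2 := by
      rw [hre] at p2
      exact mul_left_cancel₀ hac.ne' (p2.trans q2.symm)
    have him' : (α ^ 2).im = (β ^ 2).im := by
      rcases sq_eq_sq_iff_eq_or_eq_neg.1 him with h | h
      · exact h
      · linarith
    exact hsq (Complex.ext hre him')
  · have h0' : a = 0 ∨ c = 0 := by
      rcases h0 with h | h | h
      · exact Or.inl h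
      · exact absurd h hb0.ne'
      · exact Or.inr h
    rcases hia.eq_or_lt with h1 | h1 <;> rcases hib.eq_or_lt with h2 | h2
    · -- both real
      have real : ∀ γ : ℂ, γ ∈ quadrant → G a b c γ = 0 → (γ ^ 2).im = 0 → γ.im = 0 := by
        intro γ hγ hγ0 hγi
        obtain ⟨hx, -⟩ := eqs hγ0
        rw [hγi] at hx
        have hx0 : 0 ≤ (γ ^ 2).re := by
          by_contra hcon
          have hneg := not_le.1 hcon
          have e1 : 0 ≤ a * (γ ^ 2).re ^ 2 := by positivity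
          have e2 : 0 ≤ c * ((γ ^ 2).re - 1) ^ 2 := by positivity
          have e3 : (γ ^ 2).re ^ 3 + (γ ^ 2).re < 0 := by
            nlinarith [sq_nonneg (γ ^ 2).re]
          have e4 := mul_neg_of_pos_of_neg hb0 e3
          have e5 : -a * (γ ^ 2).re ^ 2 + b * ((γ ^ 2).re ^ 3 + (γ ^ 2).re) -
            c * ((γ ^ 2).re - 1) ^ 2 = 0 := by linear_combination hx
          linarith
        have h3 := sq_im γ
        have h4 := sq_re γ
        rw [hγi] at h3
        by_contra hne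
        have h7 : 0 < γ.im := lt_of_le_of_ne hγ.2 (Ne.symm hne)
        have h8 : γ.re = 0 := by
          have : γ.re * γ.im = 0 := by linarith
          exact (mul_eq_zero.1 this).resolve_right hne
        rw [h8] at h4
        nlinarith
      have r1 := real α hα hα0 h1.symm
      have r2 := real β hβ hβ0 h2.symm
      have hre : α.re ≠ β.re := fun h => hαβ (Complex.ext h (by rw [r1, r2]))
      rcases lt_or_gt_of_ne hre with h | h
      · exact Or.inl ⟨h, by rw [r1, r2]⟩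
      · exact Or.inr ⟨h, by rw [r1, r2]⟩
    · exact Or.inl (mixed' hb0 ha hc h0' hα hβ hα0 hβ0 h1.symm h2)
    · exact Or.inr (mixed' hb0 ha hc h0' hβ hα hβ0 hα0 h2.symm h1)
    · -- both nonreal
      exfalso
      have cub : ∀ w : ℂ, -(a : ℂ) * w ^ 2 + b * (w ^ 3 + w) - c * (w - 1) ^ 2 =
          (b : ℂ) * w ^ 3 + (-(a : ℂ) - c) * w ^ 2 + (b + 2 * c) * w + (-c) := by
        intro w; ring
      have pz : ∀ γ : ℂ, G a b c γ = 0 → (b : ℂ) * (γ ^ 2) ^ 3 + (-(a : ℂ) - c) * (γ ^ 2) ^ 2 +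
          (b + 2 * c) * (γ ^ 2) + (-c) = 0 := by
        intro γ hγ
        rw [← cub, ← hγ]; unfold G; ring
      have cz : ∀ w : ℂ, (b : ℂ) * w ^ 3 + (-(a : ℂ) - c) * w ^ 2 + (b + 2 * c) * w + (-c) = 0 →
          (b : ℂ) * (starRingEnd ℂ w) ^ 3 + (-(a : ℂ) - c) * (starRingEnd ℂ w) ^ 2 +
          (b + 2 * c) * (starRingEnd ℂ w) + (-c) = 0 := by
        intro w hw
        have := congrArg (starRingEnd ℂ) hw
        simpa [map_ofNat] using this
      have A := pz α hα0
      have B := pz β hβ0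
      have A' := cz _ A
      have B' := cz _ B
      have n1 : α ^ 2 ≠ starRingEnd ℂ (α ^ 2) := by
        intro h
        have := congrArg Complex.im h
        rw [Complex.conj_im] at this
        linarith
      have n2 : β ^ 2 ≠ starRingEnd ℂ (α ^ 2) := by
        intro h
        have := congrArg Complex.im h
        rw [Complex.conj_im] at this
        linarith
      have n3 : α ^ 2 ≠ starRingEnd ℂ (β ^ 2) := by
        intro h
        have := congrArg Complex.im h
        rw [Complex.conj_im] at this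
        linarith
      have n4 : β ^ 2 ≠ starRingEnd ℂ (β ^ 2) := by
        intro h
        have := congrArg Complex.im h
        rw [Complex.conj_im] at this
        linarith
      have s1 := three A B A' hsq n1 n2
      have s2 := three A B B' hsq n3 n4
      have s3 : (b : ℂ) * (starRingEnd ℂ (α ^ 2) - starRingEnd ℂ (β ^ 2)) = 0 := by
        linear_combination s1 - s2
      have s4 := (mul_eq_zero.1 s3).resolve_left (Complex.ofReal_ne_zero.2 hb0.ne')
      exact hsq ((starRingEnd ℂ).injective (sub_eq_zero.1 s4))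

lemma mono {a b c : ℝ} (ha : 0 ≤ a) (hb : 0 ≤ b) (hc : 0 ≤ c) (h0 : a = 0 ∨ b = 0 ∨ c = 0)
    (hne : ∃ z, G a b c z ≠ 0) : MonotonicZeros (G a b c) := by
  refine ⟨hne, ?_, ?_⟩
  · intro α hα β hβ hα0 hβ0 hαβ
    rcases key ha hb hc h0 hne hα hβ hα0 hβ0 hαβ with h | h
    · exact h.1.ne
    · exact h.1.ne'
  · intro α hα β hβ hα0 hβ0 hlt
    have hαβ : α ≠ β := fun h => hlt.ne (by rw [h])
    rcases key ha hb hc h0 hne hα hβ hα0 hβ0 hαβ with h | h
    · exact h.2
    · exact absurd h.1 (not_lt.2 hlt.le)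

/-- The coefficients of the members of the family. -/
def cA (n : ℕ) : ℝ := if n = 1 ∨ n = 2 then 0 else n + 1
def cB (n : ℕ) : ℝ := if n = 1 then 1 else 0
def cC (n : ℕ) : ℝ := if n = 2 then 1 else 0

lemma cA_nonneg (n : ℕ) : 0 ≤ cA n := by unfold cA; split_ifs <;> positivity
lemma cB_nonneg (n : ℕ) : 0 ≤ cB n := by unfold cB; split_ifs <;> norm_num
lemma cC_nonneg (n : ℕ) : 0 ≤ cC n := by unfold cC; split_ifs <;> norm_num

/-- The family. -/
def fam (k : ℕ) (j : Fin k) : ℂ → ℂ := G (cA j) (cB j) (cC j)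

lemma G_one (a b c : ℝ) : G a b c 1 = ((2 * b - a : ℝ) : ℂ) := by
  unfold G; push_cast; ring

lemma fam_injective (k : ℕ) : Function.Injective (fam k) := by
  intro i j h
  have h1 := congrFun h 1
  unfold fam at h1
  rw [G_one, G_one, Complex.ofReal_inj] at h1
  unfold cA cB at h1
  apply Fin.ext
  have hi : (0 : ℝ) ≤ (i : ℕ) := Nat.cast_nonneg _
  have hj : (0 : ℝ) ≤ (j : ℕ) := Nat.cast_nonneg _
  have e : ((i : ℕ) : ℝ) = ((j : ℕ) : ℝ) ↔ (i : ℕ) = (j : ℕ) := Nat.cast_inj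
  split_ifs at h1 <;> first | omega | (exfalso; linarith) | (exact e.1 (by linarith))

lemma fam_nice (k : ℕ) (j : Fin k) : EvenRealEntire (fam k j) := by
  refine ⟨?_, ?_, ?_⟩
  · unfold fam G
    fun_prop
  · intro z
    unfold fam G
    ring
  · intro x
    have : fam k j (x : ℂ) =
        ((-(cA j) * x ^ 4 + cB j * (x ^ 6 + x ^ 2) - cC j * (x ^ 2 - 1) ^ 2 : ℝ) : ℂ) := by
      unfold fam G; push_cast; ring
    rw [this, Complex.ofReal_im]

lemma G_comb {ι : Type} (s : Finset ι) (c A B C : ι → ℝ) (z : ℂ) :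
    ∑ j ∈ s, (c j : ℂ) * G (A j) (B j) (C j) z =
      G (∑ j ∈ s, c j * A j) (∑ j ∈ s, c j * B j) (∑ j ∈ s, c j * C j) z := by
  unfold G
  push_cast
  rw [← Finset.sum_neg_distrib, Finset.sum_mul, Finset.sum_mul, Finset.sum_mul,
    ← Finset.sum_add_distrib, ← Finset.sum_sub_distrib]
  refine Finset.sum_congr rfl fun j _ => ?_
  ring

lemma fam_ne (k : ℕ) (j : Fin k) : ∃ z, fam k j z ≠ 0 := by
  refine ⟨2, ?_⟩
  have h : fam k j 2 = ((-16 * cA j + 68 * cB j - 9 * cC j : ℝ) : ℂ) := by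
    unfold fam G; push_cast; ring
  rw [h, Complex.ofReal_ne_zero]
  unfold cA cB cC
  have hj : (0 : ℝ) ≤ (j : ℕ) := Nat.cast_nonneg _
  split_ifs <;> first | omega | (intro h; linarith)

lemma fam_mono (k : ℕ) (j : Fin k) : MonotonicZeros (fam k j) := by
  refine mono (cA_nonneg _) (cB_nonneg _) (cC_nonneg _) ?_ (fam_ne k j)
  unfold cA cB cC
  split_ifs <;> first | omega | simp

lemma fam_pair (k : ℕ) : PairwiseCompatible (fam k) := by
  intro i j _ c hc hne
  have e : (fun z => ∑ l, (c l : ℂ) * (![fam k i, fam k j] : Fin 2 → ℂ → ℂ) l z) =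
      G (c 0 * cA i + c 1 * cA j) (c 0 * cB i + c 1 * cB j) (c 0 * cC i + c 1 * cC j) := by
    funext z
    simp only [Fin.sum_univ_two, Matrix.cons_val_zero, Matrix.cons_val_one, fam, G]
    push_cast
    ring
  rw [e]
  have hne' : ∃ z, G (c 0 * cA i + c 1 * cA j) (c 0 * cB i + c 1 * cB j)
      (c 0 * cC i + c 1 * cC j) z ≠ 0 := by
    obtain ⟨z, hz⟩ := hne
    exact ⟨z, by rw [← e]; exact hz⟩
  have h0 := hc 0
  have h1 := hc 1
  have a1 := cA_nonneg i
  have a2 := cA_nonneg j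
  have b1 := cB_nonneg i
  have b2 := cB_nonneg j
  have c1 := cC_nonneg i
  have c2 := cC_nonneg j
  refine mono (by positivity) (by positivity) (by positivity) ?_ hne'
  unfold cA cB cC
  split_ifs <;> first | omega | simp

lemma fam_bad (k : ℕ) (hk : 3 ≤ k) : ¬ Compatible (fam k) := by
  intro h
  set c : Fin k → ℝ := fun j => if (j : ℕ) = 0 then 25 else if (j : ℕ) = 1 then 8 else
    if (j : ℕ) = 2 then 16 else 0 with hcdef
  have e : (fun z => ∑ l, (c l : ℂ) * fam k l z) = G 25 8 16 := by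
    funext z
    unfold fam
    rw [G_comb]
    have sA : ∑ j : Fin k, c j * cA j = 25 := by
      rw [Finset.sum_eq_single (⟨0, by omega⟩ : Fin k)]
      · simp [hcdef, cA]
      · intro b _ hb
        have hb' : (b : ℕ) ≠ 0 := fun h => hb (Fin.ext h)
        simp only [hcdef, cA]
        split_ifs <;> first | omega | simp
      · intro h; exact absurd (Finset.mem_univ _) h
    have sB : ∑ j : Fin k, c j * cB j = 8 := by
      rw [Finset.sum_eq_single (⟨1, by omega⟩ : Fin k)]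
      · simp [hcdef, cB]
      · intro b _ hb
        have hb' : (b : ℕ) ≠ 1 := fun h => hb (Fin.ext h)
        simp only [hcdef, cB]
        split_ifs <;> first | omega | simp
      · intro h; exact absurd (Finset.mem_univ _) h
    have sC : ∑ j : Fin k, c j * cC j = 16 := by
      rw [Finset.sum_eq_single (⟨2, by omega⟩ : Fin k)]
      · simp [hcdef, cC]
      · intro b _ hb
        have hb' : (b : ℕ) ≠ 2 := fun h => hb (Fin.ext h)
        simp only [hcdef, cC]
        split_ifs <;> first | omega | simp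
      · intro h; exact absurd (Finset.mem_univ _) h
    rw [sA, sB, sC]
  have hc : ∀ j, 0 ≤ c j := by
    intro j
    simp only [hcdef]
    split_ifs <;> norm_num
  have hne : ∃ z, ∑ l, (c l : ℂ) * fam k l z ≠ 0 := by
    refine ⟨0, ?_⟩
    have h5 : ∑ l, (c l : ℂ) * fam k l 0 = G 25 8 16 0 := congrFun e 0
    rw [h5]
    unfold G
    norm_num
  have hm := h c hc hne
  rw [e] at hm
  obtain ⟨-, h1, h2⟩ := hm
  -- the other zero
  obtain ⟨β0, hβ0⟩ := IsAlgClosed.exists_pow_nat_eq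
    ((9 / 16 : ℝ) + ((Real.sqrt 47 / 16 : ℝ) : ℂ) * Complex.I : ℂ) (n := 2) (by norm_num)
  have hs47 : 0 < Real.sqrt 47 := by positivity
  have hs : Real.sqrt 47 ^ 2 = 47 := Real.sq_sqrt (by norm_num)
  obtain ⟨β, hβ, hβr, hβi⟩ : ∃ β : ℂ,
      β ^ 2 = ((9 / 16 : ℝ) + ((Real.sqrt 47 / 16 : ℝ) : ℂ) * Complex.I : ℂ) ∧
      0 < β.re ∧ 0 < β.im := by
    have him : 2 * β0.re * β0.im = Real.sqrt 47 / 16 := by
      rw [← sq_im, hβ0]; simp
    rcases lt_trichotomy β0.re 0 with h3 | h3 | h3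
    · refine ⟨-β0, by rw [neg_sq, hβ0], by simpa using h3, ?_⟩
      have : β0.im < 0 := by
        by_contra hcon
        have := mul_nonpos_of_nonpos_of_nonneg h3.le (not_lt.1 hcon)
        linarith
      simpa using this
    · exfalso
      rw [h3] at him
      linarith
    · refine ⟨β0, hβ0, h3, ?_⟩
      by_contra hcon
      have := mul_nonpos_of_nonneg_of_nonpos h3.le (not_lt.1 hcon)
      linarith
  have hre : β.re ^ 2 - β.im ^ 2 = 9 / 16 := by rw [← sq_re, hβ]; simp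
  have him : 2 * β.re * β.im = Real.sqrt 47 / 16 := by rw [← sq_im, hβ]; simp
  have hβzero : G 25 8 16 β = 0 := by
    have hI : Complex.I ^ 2 = -1 := Complex.I_sq
    have hsC : ((Real.sqrt 47 : ℝ) : ℂ) ^ 2 = 47 := by rw [← Complex.ofReal_pow, hs]; simp
    have hq : (β ^ 2) ^ 2 - 9 / 8 * β ^ 2 + 1 / 2 = 0 := by
      rw [hβ]; push_cast
      linear_combination (1 / 256) * Complex.I ^ 2 * hsC + (47 / 256) * hI
    unfold G
    push_cast
    linear_combination (8 * β ^ 2 - 32) * hq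
  have hα : (2 : ℂ) ∈ quadrant := by
    constructor <;> norm_num
  have hαzero : G 25 8 16 2 = 0 := by
    unfold G; push_cast; norm_num
  have hlt : β.re < (2 : ℂ).re := by
    have h47 : Real.sqrt 47 < 7 := by
      rw [show (7 : ℝ) = Real.sqrt 49 by
        rw [show (49 : ℝ) = 7 ^ 2 by norm_num, Real.sqrt_sq (by norm_num)]]
      exact Real.sqrt_lt_sqrt (by norm_num) (by norm_num)
    show β.re < 2
    by_contra hcon
    have hcon' := not_lt.1 hcon
    -- `β.im ^ 2 = β.re ^ 2 - 9 / 16 ≥ 3`, so `2 β.re β.im > 1`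
    have h5 : 1 ≤ β.im := by nlinarith
    nlinarith
  have := h2 β ⟨hβr.le, hβi.le⟩ 2 hα hβzero hαzero hlt
  simp at this
  linarith

/-- **Pairwise compatibility does not imply compatibility.**  For every `k ≥ 3` there are `k`
distinct even, real, entire functions with monotonic zeros in the closed first quadrant such that
every pair is compatible, but the family is not. -/
theorem result : ∀ k : ℕ, 3 ≤ k → ∃ f : Fin k → ℂ → ℂ, Function.Injective f ∧
    (∀ j, EvenRealEntire (f j)) ∧ (∀ j, MonotonicZeros (f j)) ∧ PairwiseCompatible f ∧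
    ¬ Compatible f := fun k hk =>
  ⟨fam k, fam_injective k, fam_nice k, fam_mono k, fam_pair k, fam_bad k hk⟩

end Pool.Agent.Results.MP_c4a6c0_an.PairwiseNotCompatible
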